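import Pool.Agent.Lib.MP_c7af3c_ag.GEN.Interfaces

/-! # Module ALGC of project GEN (MP_c7af3c_ag), helper51. -/

set_option autoImplicit false

namespace Pool.Agent.Gen.H51

open Polynomial WithZero IsDedekindDomain

/-- A polynomial in `τ` which becomes a polynomial in `1/τ` after multiplication by a polynomial
in `1/τ` with non-zero constant term is constant. -/
theorem const_of_both {κ L : Type} [Field κ] [Field L] [Algebra κ L] {τ : L}
    (ht : Transcendental κ τ) (γ p q : Polynomial κ) (hγ : γ.coeff 0 ≠ 0)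
    (h : aeval τ⁻¹ γ * aeval τ p = aeval τ⁻¹ q) : p.natDegree = 0 := by
  have hτ : τ ≠ 0 := by
    rintro rfl
    exact ht (isAlgebraic_zero)
  let N := max γ.natDegree q.natDegree
  have key : ∀ f : Polynomial κ, f.natDegree ≤ N →
      aeval τ (reflect N f) = aeval τ⁻¹ f * τ ^ N := by
    intro f hf
    let _ : Invertible τ⁻¹ := invertibleOfNonzero (inv_ne_zero hτ)
    have h1 := eval₂_reflect_mul_pow (algebraMap κ L) τ⁻¹ N f hf
    have h2 : (⅟(τ⁻¹) : L) = τ := by rw [invOf_eq_inv, inv_inv]
    rw [h2] at h1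
    rw [aeval_def, aeval_def, ← h1, mul_assoc, ← mul_pow, inv_mul_cancel₀ hτ, one_pow, mul_one]
  have h1 : reflect N γ * p = reflect N q := by
    apply (transcendental_iff_injective.1 ht)
    rw [map_mul, key γ (le_max_left _ _), key q (le_max_right _ _), ← h]
    ring
  have h0 : (reflect N γ).coeff N ≠ 0 := by
    rw [coeff_reflect, revAt_le le_rfl, Nat.sub_self]
    exact hγ
  have hr : (reflect N γ) ≠ 0 := fun h => h0 (by rw [h, coeff_zero])
  have h2 : N ≤ (reflect N γ).natDegree := le_natDegree_of_ne_zero h0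
  have h3 : (reflect N q).natDegree ≤ N := by
    refine natDegree_reflect_le.trans ?_
    exact max_le le_rfl (le_max_right _ _)
  by_cases hp : p = 0
  · rw [hp, natDegree_zero]
  · have h4 := natDegree_mul hr hp
    rw [h1] at h4
    omega

theorem coeff_mem {κ L : Type} [Field κ] [Field L] [Algebra κ L] {τ : L} (h : FF κ L τ) {y : L}
    (hy : IsIntegral (PA κ τ) y) (i : ℕ) :
    ∃ p : Polynomial κ, ((minpoly (IntermediateField.adjoin κ {τ}) y).map
      (algebraMap (IntermediateField.adjoin κ {τ}) L)).coeff i = aeval τ p := by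
  open scoped IntermediateField.algebraAdjoinAdjoin in
  have := h.pid
  have h1 := minpoly.isIntegrallyClosed_eq_field_fractions' (IntermediateField.adjoin κ {τ}) hy
  rw [h1, Polynomial.map_map, coeff_map]
  have h2 : ((minpoly (PA κ τ) y).coeff i : L) ∈ PA κ τ := ((minpoly (PA κ τ) y).coeff i).2
  have h3 : PA κ τ = (aeval τ : Polynomial κ →ₐ[κ] L).range :=
    Algebra.adjoin_singleton_eq_range_aeval κ τ
  have h4 : ((minpoly (PA κ τ) y).coeff i : L) ∈ (aeval τ : Polynomial κ →ₐ[κ] L).range :=
    h3 ▸ h2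
  obtain ⟨p, hp⟩ := h4
  exact ⟨p, hp.symm⟩

theorem map_minpoly_congr {κ L : Type} [Field κ] [Field L] [Algebra κ L]
    {F F' : IntermediateField κ L} (h : F = F') (y : L) :
    (minpoly F y).map (algebraMap F L) = (minpoly F' y).map (algebraMap F' L) := by
  subst h
  rfl

theorem adjoin_inv {κ L : Type} [Field κ] [Field L] [Algebra κ L] (τ : L) :
    IntermediateField.adjoin κ {τ⁻¹} = IntermediateField.adjoin κ {τ} := by
  apply le_antisymm
  · rw [IntermediateField.adjoin_simple_le_iff]
    exact inv_mem (IntermediateField.mem_adjoin_simple_self κ τ)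
  · rw [IntermediateField.adjoin_simple_le_iff]
    have := inv_mem (IntermediateField.mem_adjoin_simple_self κ τ⁻¹)
    rwa [inv_inv] at this

theorem algc (hP : PlaceStatement) : AlgcStatement := by
  intro κ L _ _ _ τ h y hy
  have hF := hP κ L τ h
  have hτ : τ ≠ 0 := by
    rintro rfl
    exact h.tr (isAlgebraic_zero)
  -- integrality over `κ[τ]`
  have hy1 : IsIntegral (PA κ τ) y := by
    have := h.ddk
    have := h.frac
    obtain ⟨b, hb⟩ := HeightOneSpectrum.mem_integers_of_valuation_le_one (R := PB κ τ) (K := L) y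
      (fun P => hy (Sum.inl P) (hF.w_pos P))
    rw [← hb]
    exact b.2
  obtain ⟨β, hβ0, hβ⟩ := hF.den₂ y (fun Q hQ => hy (Sum.inr Q) hQ)
  have hb : aeval τ⁻¹ β ≠ 0 := by
    intro h0
    apply h.inv.tr
    refine ⟨β, fun h1 => hβ0 (by rw [h1, coeff_zero]), h0⟩
  -- the minimal polynomial has coefficients in `κ`
  set F := IntermediateField.adjoin κ {τ} with hFdef
  have hcoef : ∀ i, ((minpoly F y).map (algebraMap F L)).coeff i ∈
      Set.range (algebraMap κ L) := by
    intro i
    obtain ⟨p, hp⟩ := coeff_mem h hy1 i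
    obtain ⟨q, hq⟩ := coeff_mem h.inv hβ i
    have hbF : aeval τ⁻¹ β ∈ F := by
      have h1 : τ⁻¹ ∈ F := inv_mem (IntermediateField.mem_adjoin_simple_self κ τ)
      exact (IntermediateField.algebra_adjoin_le_adjoin κ {τ⁻¹}).trans
        (adjoin_inv τ).le (Algebra.adjoin_singleton_eq_range_aeval κ τ⁻¹ ▸ ⟨β, rfl⟩)
    let b : F := ⟨aeval τ⁻¹ β, hbF⟩
    have hb0 : b ≠ 0 := fun h0 => hb (congrArg Subtype.val h0)
    have hyF : IsIntegral F y := by
      have := h.fin
      exact Algebra.IsIntegral.isIntegral y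
    have h2 := IsIntegrallyClosed.minpoly_smul hb0 hyF
    have h3 : b • y = aeval τ⁻¹ β * y := rfl
    rw [h3] at h2
    rw [map_minpoly_congr (adjoin_inv τ), h2, coeff_map, coeff_scaleRoots, map_mul, map_pow] at hq
    rw [← hFdef, coeff_map] at hp
    rw [hp] at hq
    have h4 : aeval τ⁻¹ (β ^ ((minpoly F y).natDegree - i)) * aeval τ p = aeval τ⁻¹ q := by
      rw [map_pow, mul_comm]
      exact hq
    have h5 := const_of_both h.tr _ p q (by
      rw [coeff_zero_eq_eval_zero, eval_pow, ← coeff_zero_eq_eval_zero]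
      exact pow_ne_zero _ hβ0) h4
    rw [coeff_map, hp, eq_C_of_natDegree_eq_zero h5]
    exact ⟨p.coeff 0, by rw [aeval_C]⟩
  have hl := (lifts_iff_coeff_lifts _).2 hcoef
  obtain ⟨m, hm⟩ := (mem_lifts _).1 hl
  refine ⟨m, ?_, ?_⟩
  · rintro rfl
    rw [Polynomial.map_zero] at hm
    have hyF : IsIntegral F y := by
      have := h.fin
      exact Algebra.IsIntegral.isIntegral y
    have := minpoly.ne_zero hyF
    rw [eq_comm, Polynomial.map_eq_zero] at hm
    exact this hm
  · have h6 : aeval y m = eval y (m.map (algebraMap κ L)) := by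
      rw [eval_map_algebraMap]
    rw [h6, hm, eval_map_algebraMap]
    exact minpoly.aeval F y

end Pool.Agent.Gen.H51
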