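import Pool.Agent.Lib.MP_c7af3c_ag.GEN.Interfaces

/-! # Module COORD of project GEN (MP_c7af3c_ag), helper51. -/

set_option autoImplicit false

namespace Pool.Agent.Gen.H51.Coord

open Polynomial WithZero IsDedekindDomain

/-- Comparison of degrees at infinity. -/
theorem deg_le {κ L : Type} [Field κ] [Field L] [Algebra κ L] {τ : L}
    (ht : Transcendental κ τ) (γ p e q : Polynomial κ) (m : ℕ) (hγ : γ.coeff m ≠ 0)
    (h : aeval τ⁻¹ γ * aeval τ p = aeval τ⁻¹ e * aeval τ q) : p.natDegree ≤ m + q.natDegree := by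
  have hτ : τ ≠ 0 := by
    rintro rfl
    exact ht (isAlgebraic_zero)
  let N := max (max γ.natDegree e.natDegree) m
  have hN1 : γ.natDegree ≤ N := (le_max_left _ _).trans (le_max_left _ _)
  have hN2 : e.natDegree ≤ N := (le_max_right _ _).trans (le_max_left _ _)
  have hN3 : m ≤ N := le_max_right _ _
  have key : ∀ f : Polynomial κ, f.natDegree ≤ N →
      aeval τ (reflect N f) = aeval τ⁻¹ f * τ ^ N := by
    intro f hf
    let _ : Invertible τ⁻¹ := invertibleOfNonzero (inv_ne_zero hτ)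
    have h1 := eval₂_reflect_mul_pow (algebraMap κ L) τ⁻¹ N f hf
    have h2 : (⅟(τ⁻¹) : L) = τ := by rw [invOf_eq_inv, inv_inv]
    rw [h2] at h1
    rw [aeval_def, aeval_def, ← h1, mul_assoc, ← mul_pow, inv_mul_cancel₀ hτ, one_pow, mul_one]
  have h1 : reflect N γ * p = reflect N e * q := by
    apply (transcendental_iff_injective.1 ht)
    rw [map_mul, map_mul, key γ hN1, key e hN2]
    linear_combination (τ ^ N) * h
  have h0 : (reflect N γ).coeff (N - m) ≠ 0 := by
    rw [coeff_reflect, revAt_le (Nat.sub_le _ _), Nat.sub_sub_self hN3]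
    exact hγ
  have hr : (reflect N γ) ≠ 0 := fun h => h0 (by rw [h, coeff_zero])
  have h2 : N - m ≤ (reflect N γ).natDegree := le_natDegree_of_ne_zero h0
  have h3 : (reflect N e).natDegree ≤ N :=
    natDegree_reflect_le.trans (max_le le_rfl hN2)
  by_cases hp : p = 0
  · rw [hp, natDegree_zero]
    exact Nat.zero_le _
  · have h4 := natDegree_mul hr hp
    rw [h1] at h4
    have h5 := natDegree_mul_le (p := reflect N e) (q := q)
    omega

theorem adjoin_inv {κ L : Type} [Field κ] [Field L] [Algebra κ L] (τ : L) :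
    IntermediateField.adjoin κ {τ⁻¹} = IntermediateField.adjoin κ {τ} := by
  apply le_antisymm
  · rw [IntermediateField.adjoin_simple_le_iff]
    exact inv_mem (IntermediateField.mem_adjoin_simple_self κ τ)
  · rw [IntermediateField.adjoin_simple_le_iff]
    have := inv_mem (IntermediateField.mem_adjoin_simple_self κ τ⁻¹)
    rwa [inv_inv] at this

open scoped IntermediateField.algebraAdjoinAdjoin in
/-- Integral elements have coordinates with a fixed denominator. -/
theorem coords_int {κ L : Type} [Field κ] [Field L] [Algebra κ L] {τ : L} (h : FF κ L τ) (r : ℕ)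
    (θ : Fin r → L) (hli : LinearIndependent (IntermediateField.adjoin κ {τ}) θ)
    (hsp : ⊤ ≤ Submodule.span (IntermediateField.adjoin κ {τ}) (Set.range θ)) :
    ∃ g : Polynomial κ, g ≠ 0 ∧ ∀ z : L, IsIntegral (PA κ τ) z → ∀ y : Fin r → L,
      (∀ s, y s ∈ IntermediateField.adjoin κ {τ}) → z = ∑ s, y s * θ s →
      ∀ s, ∃ c : Polynomial κ, aeval τ g * y s = aeval τ c := by
  set F := IntermediateField.adjoin κ {τ} with hF
  let b : Module.Basis (Fin r) F L := Module.Basis.mk hli hsp
  have hb : ∀ s, b s = θ s := fun s => Module.Basis.mk_apply hli hsp s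
  have hfin := h.finB
  obtain ⟨S, hS⟩ := hfin.fg_top
  classical
  let T : Finset F := (S ×ˢ (Finset.univ : Finset (Fin r))).image
    fun u => b.repr (u.1 : L) u.2
  obtain ⟨d, hd⟩ := IsLocalization.exist_integer_multiples_of_finset
    (nonZeroDivisors (PA κ τ)) (S := F) T
  have hd0 : ((d : PA κ τ) : L) ≠ 0 := by
    have := nonZeroDivisors.ne_zero d.2
    intro h0
    exact this (Subtype.ext h0)
  have hall : ∀ z : PB κ τ, ∀ s, ((d : PA κ τ) : L) * ((b.repr (z : L) s : F) : L) ∈ PA κ τ := by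
    intro z
    have hz : z ∈ Submodule.span (PA κ τ) (S : Set (PB κ τ)) := by rw [hS]; trivial
    induction hz using Submodule.span_induction with
    | mem u hu =>
      intro s
      have h1 : b.repr (u : L) s ∈ T := by
        refine Finset.mem_image.2 ⟨(u, s), ?_, rfl⟩
        exact Finset.mem_product.2 ⟨hu, Finset.mem_univ _⟩
      obtain ⟨c, hc⟩ := hd _ h1
      have h2 := congrArg (algebraMap F L) hc
      have h3 : algebraMap F L (algebraMap (PA κ τ) F c) = (c : L) := rfl
      rw [h3] at h2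
      have h4 : algebraMap F L ((d : PA κ τ) • b.repr (u : L) s) =
          ((d : PA κ τ) : L) * ((b.repr (u : L) s : F) : L) := by
        rw [Algebra.smul_def, map_mul]
        rfl
      rw [← h4, ← h2]
      exact c.2
    | zero =>
      intro s
      have : ((0 : PB κ τ) : L) = 0 := rfl
      rw [this, map_zero, Finsupp.zero_apply]
      simp
    | add u v _ _ hu hv =>
      intro s
      have : ((u + v : PB κ τ) : L) = u + v := rfl
      rw [this, map_add, Finsupp.add_apply]
      have h1 : (((b.repr (u : L) s + b.repr (v : L) s : F)) : L) =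
          ((b.repr (u : L) s : F) : L) + ((b.repr (v : L) s : F) : L) := rfl
      rw [h1, mul_add]
      exact add_mem (hu s) (hv s)
    | smul a u _ hu =>
      intro s
      have h1 : ((a • u : PB κ τ) : L) = (algebraMap (PA κ τ) F a) • (u : L) := rfl
      rw [h1, map_smul, Finsupp.smul_apply, smul_eq_mul]
      have h2 : ((algebraMap (PA κ τ) F a * b.repr (u : L) s : F) : L) =
          (a : L) * ((b.repr (u : L) s : F) : L) := rfl
      rw [h2, mul_left_comm]
      exact mul_mem a.2 (hu s)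
  have hrange : ∀ a : L, a ∈ PA κ τ → ∃ p : Polynomial κ, a = aeval τ p := by
    intro a ha
    have h3 : PA κ τ = (aeval τ : Polynomial κ →ₐ[κ] L).range :=
      Algebra.adjoin_singleton_eq_range_aeval κ τ
    have h4 : a ∈ (aeval τ : Polynomial κ →ₐ[κ] L).range := h3 ▸ ha
    obtain ⟨p, hp⟩ := h4
    exact ⟨p, hp.symm⟩
  obtain ⟨g, hg⟩ := hrange _ (d : PA κ τ).2
  refine ⟨g, ?_, ?_⟩
  · rintro rfl
    rw [map_zero] at hg
    exact hd0 hg
  · intro z hz y hy hzy s
    have h1 : b.repr z s = ⟨y s, hy s⟩ := by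
      have h2 : z = ∑ s, (⟨y s, hy s⟩ : F) • b s := by
        rw [hzy]
        refine Finset.sum_congr rfl fun s _ => ?_
        rw [hb]
        rfl
      rw [h2, Module.Basis.repr_sum_self]
    have h2 := hall ⟨z, hz⟩ s
    rw [← hg]
    have h3 : ((b.repr ((⟨z, hz⟩ : PB κ τ) : L) s : F) : L) = y s := by
      show ((b.repr z s : F) : L) = y s
      rw [h1]
    rw [h3] at h2
    exact hrange _ h2

theorem finsum_inl_le {α β : Type} (f : α → ℤ) (g : α ⊕ β → ℤ) (hf : ∀ a, f a ≤ g (Sum.inl a))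
    (hg : ∀ p, 0 ≤ g p) (hfin : (Function.support g).Finite) (hf0 : ∀ a, 0 ≤ f a) :
    ∑ᶠ a, f a ≤ ∑ᶠ p, g p := by
  classical
  have hs : (Function.support f).Finite := by
    have h1 : Set.InjOn (Sum.inl : α → α ⊕ β) (Function.support f) := Sum.inl_injective.injOn
    refine Set.Finite.of_finite_image (hfin.subset ?_) h1
    rintro _ ⟨a, ha, rfl⟩
    rw [Function.mem_support] at ha ⊢
    have := hf a
    have := hf0 a
    omega
  rw [finsum_eq_sum f hs, finsum_eq_sum g hfin]
  calc ∑ a ∈ hs.toFinset, f a ≤ ∑ a ∈ hs.toFinset, g (Sum.inl a) :=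
        Finset.sum_le_sum fun a _ => hf a
    _ = ∑ p ∈ hs.toFinset.map ⟨Sum.inl, Sum.inl_injective⟩, g p := by
        rw [Finset.sum_map]; rfl
    _ ≤ ∑ p ∈ hfin.toFinset, g p := by
        refine Finset.sum_le_sum_of_subset_of_nonneg ?_ fun p _ _ => hg p
        intro p hp
        rw [Finset.mem_map] at hp
        obtain ⟨a, ha, rfl⟩ := hp
        rw [Set.Finite.mem_toFinset, Function.mem_support] at ha ⊢
        have h1 := hf a
        have h2 := hf0 a
        show g (Sum.inl a) ≠ 0
        omega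

theorem coord (hP : PlaceStatement) : CoordStatement := by
  intro κ L _ _ _ τ h r θ hli hsp C
  have hF := hP κ L τ h
  have hτ : τ ≠ 0 := by
    rintro rfl
    exact h.tr (isAlgebraic_zero)
  obtain ⟨g₁, hg₁, H₁⟩ := coords_int h r θ hli hsp
  have hcong : ∀ F F' : IntermediateField κ L, F = F' → (LinearIndependent F θ ∧
      ⊤ ≤ Submodule.span F (Set.range θ)) → (LinearIndependent F' θ ∧
      ⊤ ≤ Submodule.span F' (Set.range θ)) := by
    intro F F' e
    subst e
    exact id
  obtain ⟨hli', hsp'⟩ := hcong _ _ (adjoin_inv τ).symm ⟨hli, hsp⟩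
  obtain ⟨g₂, hg₂, H₂⟩ := coords_int h.inv r θ hli' hsp'
  set c₀ := C.toNat with hc₀
  refine ⟨(g₂.natTrailingDegree + c₀) + (g₁.natDegree + c₀), ?_⟩
  intro n x j0 hx hht j y hy hxy s
  -- first kind
  obtain ⟨β, hβ, hβi, hβd⟩ := hF.den₁ (x j)
  have hβC : β.natDegree ≤ c₀ := by
    have h1 : (β.natDegree : ℤ) ≤ (ffPlaces h).ht x := by
      rw [hβd]
      have hx0 : x ≠ 0 := fun h0 => by rw [h0] at hx; exact zero_ne_one hx
      refine finsum_inl_le _ (fun p => ((ffPlaces h).w p : ℤ) * log ((ffPlaces h).mx x p))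
        ?_ ?_ ?_ ?_
      · intro P
        refine mul_le_mul_of_nonneg_left ?_ (by positivity)
        refine max_le ((ffPlaces h).log_mx_nonneg x hx _) ?_
        by_cases h0 : (ffPlaces h).v (Sum.inl P) (x j) = 0
        · rw [h0, log_zero]
          exact (ffPlaces h).log_mx_nonneg x hx _
        · exact (log_le_log h0 ((ffPlaces h).mx_ne_zero x hx0 _)).2
            ((ffPlaces h).le_mx x _ j)
      · intro p
        exact mul_nonneg (by positivity) ((ffPlaces h).log_mx_nonneg x hx p)
      · refine ((ffPlaces h).finite_mx x hF.fin hx0).subset fun q hq h1 => hq ?_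
        show ((ffPlaces h).w q : ℤ) * log ((ffPlaces h).mx x q) = 0
        rw [h1, log_one, mul_zero]
      · intro P
        exact mul_nonneg (by positivity) (le_max_left _ _)
    omega
  have hxy1 : aeval τ β * x j = ∑ s, (aeval τ β * y s) * θ s := by
    rw [hxy, Finset.mul_sum]
    exact Finset.sum_congr rfl fun s _ => by ring
  have hmem : ∀ f : Polynomial κ, aeval τ f ∈ IntermediateField.adjoin κ {τ} := by
    intro f
    exact IntermediateField.algebra_adjoin_le_adjoin κ {τ}
      (Algebra.adjoin_singleton_eq_range_aeval κ τ ▸ ⟨f, rfl⟩)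
  obtain ⟨c, hc⟩ := H₁ _ hβi (fun s => aeval τ β * y s) (fun s => mul_mem (hmem β) (hy s)) hxy1 s
  -- second kind
  have hz : ∀ Q, 0 < (ffPlaces h).w (Sum.inr Q) →
      (ffPlaces h).v (Sum.inr Q) (x j * τ⁻¹ ^ c₀) ≤ 1 := by
    intro Q hQ
    have h1 := (ffPlaces h).v_le_of_ht_le x hF.fin hx hht (Sum.inr Q) hQ j
    have h2 := hF.w_inf Q hQ
    rw [map_mul, map_pow]
    calc (ffPlaces h).v (Sum.inr Q) (x j) * (ffPlaces h).v (Sum.inr Q) τ⁻¹ ^ c₀
        ≤ exp C * (exp (-1 : ℤ)) ^ c₀ := mul_le_mul' h1 (pow_le_pow_left' h2 c₀)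
      _ = exp (C - c₀) := by
          rw [← exp_nsmul, ← exp_add]
          have h3 : C + c₀ • (-1 : ℤ) = C - c₀ := by
            rw [nsmul_eq_mul]
            ring
          rw [h3]
      _ ≤ exp 0 := by
          rw [exp_le_exp]
          omega
      _ = 1 := exp_zero
  obtain ⟨β', hβ'0, hβ'i⟩ := hF.den₂ _ hz
  have hxy2 : aeval τ⁻¹ β' * (x j * τ⁻¹ ^ c₀) =
      ∑ s, (aeval τ⁻¹ β' * τ⁻¹ ^ c₀ * y s) * θ s := by
    rw [hxy, Finset.sum_mul, Finset.mul_sum]
    exact Finset.sum_congr rfl fun s _ => by ring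
  have hmem' : ∀ f : Polynomial κ, aeval τ⁻¹ f ∈ IntermediateField.adjoin κ {τ⁻¹} := by
    intro f
    exact IntermediateField.algebra_adjoin_le_adjoin κ {τ⁻¹}
      (Algebra.adjoin_singleton_eq_range_aeval κ τ⁻¹ ▸ ⟨f, rfl⟩)
  obtain ⟨e, he⟩ := H₂ _ hβ'i (fun s => aeval τ⁻¹ β' * τ⁻¹ ^ c₀ * y s)
    (fun s => mul_mem (mul_mem (hmem' β')
      (pow_mem (IntermediateField.mem_adjoin_simple_self κ τ⁻¹) _))
      (by rw [adjoin_inv (κ := κ) τ]; exact hy s)) hxy2 s
  -- combine
  have hfinal : aeval τ⁻¹ (g₂ * β' * X ^ c₀) * aeval τ c = aeval τ⁻¹ e * aeval τ (g₁ * β) := by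
    rw [← he, ← hc, map_mul, map_mul, map_mul, map_pow, aeval_X]
    ring
  have hco : (g₂ * β' * X ^ c₀).coeff (g₂.natTrailingDegree + c₀) ≠ 0 := by
    rw [coeff_mul_X_pow]
    have h1 : (g₂ * β').coeff (g₂.natTrailingDegree + 0) =
        g₂.coeff g₂.natTrailingDegree * β'.coeff 0 := by
      have h2 : β'.natTrailingDegree = 0 := by
        rw [natTrailingDegree_eq_zero]
        exact Or.inr hβ'0
      have h3 := coeff_mul_natTrailingDegree_add_natTrailingDegree (p := g₂) (q := β')
      rw [h2] at h3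
      rw [h3, trailingCoeff, trailingCoeff, h2]
    rw [Nat.add_zero] at h1
    rw [h1]
    exact mul_ne_zero (mt trailingCoeff_eq_zero.1 hg₂) hβ'0
  have hdeg := deg_le h.tr _ c e (g₁ * β) _ hco hfinal
  have hq : (g₁ * β).natDegree ≤ g₁.natDegree + c₀ :=
    natDegree_mul_le.trans (Nat.add_le_add_left hβC _)
  refine ⟨c, g₁ * β, mul_ne_zero hg₁ hβ, by omega, by omega, ?_⟩
  rw [← hc, map_mul]
  ring

end Pool.Agent.Gen.H51.Coord
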