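import Pool.Agent.Lib.MP_c7af3c_ag.GEN.Interfaces

/-! # Module DERZ of project GEN (MP_c7af3c_ag), helper51. -/

set_option autoImplicit false

namespace Pool.Agent.Gen.H51

open MvPolynomial WithZero IsDedekindDomain

/-- A derivation of the fraction field which preserves a Dedekind domain preserves the local
rings. -/
theorem der_le {B L : Type} [CommRing B] [IsDedekindDomain B] [Field L] [Algebra B L]
    [IsFractionRing B L] (P : HeightOneSpectrum B) (δ : Derivation ℤ L L)
    (hδ : ∀ b : B, ∃ c : B, δ (algebraMap B L b) = algebraMap B L c) (f : L)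
    (hf : P.valuation L f ≤ 1) : P.valuation L (δ f) ≤ 1 := by
  obtain ⟨n, d, h⟩ := HeightOneSpectrum.exists_primeCompl_mul_eq_of_integer P f hf
  have hd : P.valuation L (algebraMap B L d) = 1 :=
    HeightOneSpectrum.valuation_eq_one_iff_notMem P |>.2 d.2
  obtain ⟨n', hn'⟩ := hδ n
  obtain ⟨d', hd'⟩ := hδ d
  have h1 : δ (f * algebraMap B L d) = f * algebraMap B L d' + algebraMap B L d * δ f := by
    rw [Derivation.leibniz, hd', smul_eq_mul, smul_eq_mul]
  rw [h, hn'] at h1
  have h2 : algebraMap B L d * δ f = algebraMap B L n' - f * algebraMap B L d' := by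
    rw [h1]; ring
  have h3 : P.valuation L (δ f) = P.valuation L (algebraMap B L d * δ f) := by
    rw [map_mul, hd, one_mul]
  rw [h3, h2]
  refine (Valuation.map_sub _ _ _).trans (max_le ?_ ?_)
  · exact HeightOneSpectrum.valuation_le_one P n'
  · rw [map_mul]
    exact mul_le_one' hf (HeightOneSpectrum.valuation_le_one P d')

theorem derz : DerzStatement := by
  intro κ L _ _ _ τ h δ h1 h2 p f hf
  have := h.ddk
  have := h.frac
  have := h.inv.ddk
  have := h.inv.frac
  rcases p with P | P
  · refine der_le P δ ?_ f hf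
    intro b
    exact ⟨⟨δ b.1, h1 _ b.2⟩, rfl⟩
  · refine der_le P δ ?_ f hf
    intro b
    exact ⟨⟨δ b.1, h2 _ b.2⟩, rfl⟩

end Pool.Agent.Gen.H51
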